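import Mathlib

/-!
Prime indices near a cluster of primes.
-/

set_option autoImplicit false

namespace Pool.Agent.W5h31.IX

open Finset Filter

/-- at least `m` primes are at distance at most `C` from the prime `p` -/
def Near (m C p : ℕ) : Prop := p.Prime ∧ m ≤ {x : ℕ | x.Prime ∧ |(x : ℤ) - p| ≤ C}.ncard

lemma pi_nth (j : ℕ) : Nat.primeCounting (Nat.nth Nat.Prime j) = j + 1 := by
  unfold Nat.primeCounting Nat.primeCounting'
  rw [Nat.count_succ, if_pos (Nat.prime_nth_prime _)]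
  have := Nat.primeCounting'_nth_eq j
  unfold Nat.primeCounting' at this
  rw [this]

lemma pi_lt {p q : ℕ} (hq : q.Prime) (h : p < q) : Nat.primeCounting p < Nat.primeCounting q := by
  have h1 : Nat.primeCounting p ≤ Nat.primeCounting (q - 1) := Nat.monotone_primeCounting (by omega)
  have h2 : Nat.primeCounting q = Nat.primeCounting (q - 1) + 1 := by
    have e : q = (q - 1) + 1 := by have := hq.pos; omega
    conv_lhs => rw [e]
    unfold Nat.primeCounting Nat.primeCounting'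
    rw [Nat.count_succ, if_pos]
    rw [← e]
    exact hq
  omega

lemma pi_inj {p q : ℕ} (hp : p.Prime) (hq : q.Prime)
    (h : Nat.primeCounting p = Nat.primeCounting q) : p = q := by
  rcases lt_trichotomy p q with h1 | h1 | h1
  · have := pi_lt hq h1; omega
  · exact h1
  · have := pi_lt hp h1; omega

/-- the indices of the primes near `p` contain `M` consecutive integers -/
lemma near_run {M C p : ℕ} (hM : 1 ≤ M) (h : Near M C p) : ∃ i : ℕ, 1 ≤ i ∧ ∀ u < M, ∃ x : ℕ,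
    x.Prime ∧ |(x : ℤ) - p| ≤ C ∧ Nat.primeCounting x = i + u := by
  classical
  obtain ⟨hp, hn⟩ := h
  set X : Set ℕ := {x : ℕ | x.Prime ∧ |(x : ℤ) - p| ≤ C} with hX
  have hfin : X.Finite := by
    refine (Set.finite_Iic (p + C)).subset fun x hx => ?_
    have := (abs_le.1 hx.2).2
    simp only [Set.mem_Iic]
    omega
  set F : Finset ℕ := hfin.toFinset with hF
  have hcard : M ≤ F.card := by rwa [hF, ← Set.ncard_eq_toFinset_card X hfin]
  have hmem : ∀ x, x ∈ F ↔ x.Prime ∧ |(x : ℤ) - p| ≤ C := fun x => by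
    rw [hF, Set.Finite.mem_toFinset]
    exact Iff.rfl
  have hne : F.Nonempty := card_pos.1 (by omega)
  set x₀ := F.min' hne with hx₀
  set x₁ := F.max' hne with hx₁
  have h0 := (hmem x₀).1 (F.min'_mem hne)
  have h1 := (hmem x₁).1 (F.max'_mem hne)
  have hpos : 1 ≤ Nat.primeCounting x₀ := by
    have := pi_lt h0.1 h0.1.pos
    omega
  refine ⟨Nat.primeCounting x₀, hpos, fun u hu => ?_⟩
  have hsub : F.image Nat.primeCounting ⊆ Icc (Nat.primeCounting x₀) (Nat.primeCounting x₁) := by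
    intro y hy
    obtain ⟨x, hx, rfl⟩ := mem_image.1 hy
    rw [mem_Icc]
    exact ⟨Nat.monotone_primeCounting (F.min'_le x hx), Nat.monotone_primeCounting (F.le_max' x hx)⟩
  have hc2 : F.card ≤ Nat.primeCounting x₁ + 1 - Nat.primeCounting x₀ := by
    have h2 := card_le_card hsub
    rw [card_image_of_injOn, Nat.card_Icc] at h2
    · exact h2
    · intro x hx y hy hxy
      exact pi_inj ((hmem x).1 hx).1 ((hmem y).1 hy).1 hxy
  set x := Nat.nth Nat.Prime (Nat.primeCounting x₀ + u - 1) with hxd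
  have hxp : x.Prime := Nat.prime_nth_prime _
  have hxi : Nat.primeCounting x = Nat.primeCounting x₀ + u := by
    rw [hxd, pi_nth]
    omega
  have hlo : x₀ ≤ x := by
    by_contra hcon
    have := pi_lt h0.1 (not_le.1 hcon)
    omega
  have hhi : x ≤ x₁ := by
    by_contra hcon
    have := pi_lt hxp (not_le.1 hcon)
    omega
  refine ⟨x, hxp, ?_, hxi⟩
  have h2 := abs_le.1 h0.2
  have h3 := abs_le.1 h1.2
  rw [abs_le]
  constructor <;> omega

/-- every box with sides `M` contains an element of `K` -/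
def Boxes (M : ℕ) (K : Set (ℕ × ℕ)) : Prop :=
  ∀ i j : ℕ, 1 ≤ i → 1 ≤ j → ∃ u < M, ∃ v < M, (i + u, j + v) ∈ K

/-- the equations -/
def Eqs : Set (ℤ × ℤ × ℤ) := {(1, 1, 2), (2, -1, 1), (2, 1, 3)}

/-- the solutions with index pair in `K` -/
def Sol (K : Set (ℕ × ℕ)) (a : ℤ × ℤ × ℤ) (N : ℕ) (c : ℤ) : Set (ℕ × ℕ) :=
  {P : ℕ × ℕ | P.1.Prime ∧ P.2.Prime ∧ P.1 ≤ 4 * N ∧ P.2 ≤ 4 * N ∧
    (Nat.primeCounting P.1, Nat.primeCounting P.2) ∈ K ∧
    a.1 * (P.1 : ℤ) + a.2.1 * (P.2 : ℤ) = a.2.2 * (N : ℤ) + c}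

lemma sol_finite (K : Set (ℕ × ℕ)) (a : ℤ × ℤ × ℤ) (N : ℕ) (c : ℤ) : (Sol K a N c).Finite := by
  refine (Set.Finite.prod (Set.finite_Iic (4 * N)) (Set.finite_Iic (4 * N))).subset ?_
  intro P hP
  exact ⟨hP.2.2.1, hP.2.2.2.1⟩

lemma eqs_bd {a : ℤ × ℤ × ℤ} (ha : a ∈ Eqs) : (a.1 = 1 ∨ a.1 = 2) ∧ (a.2.1 = 1 ∨ a.2.1 = -1) := by
  rcases ha with rfl | rfl | rfl <;> simp

lemma transfer {M C N : ℕ} (hM : 1 ≤ M) (hN : 2 * C ≤ N) {K : Set (ℕ × ℕ)} (hK : Boxes M K)
    {a : ℤ × ℤ × ℤ} (ha : a ∈ Eqs) {c : ℤ} (hc : |c| ≤ C) {S : Set ℕ} (hSfin : S.Finite)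
    (hS : ∀ p ∈ S, p ≤ 2 * N ∧ Near M C p ∧
      ∃ q : ℕ, Near M C q ∧ a.1 * (p : ℤ) + a.2.1 * (q : ℤ) = a.2.2 * (N : ℤ) + c) :
    ∃ c' : ℤ, |c'| ≤ 4 * C ∧ S.ncard ≤ (2 * C + 1) * (8 * C + 1) * (Sol K a N c').ncard := by
  classical
  obtain ⟨ha1, ha2⟩ := eqs_bd ha
  have hex : ∀ p ∈ S, ∃ P : ℕ × ℕ, P.1.Prime ∧ P.2.Prime ∧ P.1 ≤ 4 * N ∧ P.2 ≤ 4 * N ∧
      (Nat.primeCounting P.1, Nat.primeCounting P.2) ∈ K ∧ |(P.1 : ℤ) - p| ≤ C ∧
      |a.1 * (P.1 : ℤ) + a.2.1 * (P.2 : ℤ) - a.2.2 * (N : ℤ)| ≤ 4 * C := by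
    intro p hp
    obtain ⟨h1, h2, q, h3, h4⟩ := hS p hp
    obtain ⟨i, hi, hi2⟩ := near_run hM h2
    obtain ⟨j, hj, hj2⟩ := near_run hM h3
    obtain ⟨u, hu, v, hv, huv⟩ := hK i j hi hj
    obtain ⟨x, hx1, hx2, hx3⟩ := hi2 u hu
    obtain ⟨y, hy1, hy2, hy3⟩ := hj2 v hv
    have e1 := abs_le.1 hx2
    have e2 := abs_le.1 hy2
    have e3 := abs_le.1 hc
    have hNz : (2 : ℤ) * C ≤ N := by exact_mod_cast hN
    have h1z : (p : ℤ) ≤ 2 * N := by exact_mod_cast h1
    have hp0 : (0 : ℤ) ≤ p := Nat.cast_nonneg _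
    have hq : (q : ℤ) ≤ 3 * N + C := by
      rcases ha with rfl | rfl | rfl <;> simp only at h4 <;> linarith
    refine ⟨(x, y), hx1, hy1, ?_, ?_, by simpa only [hx3, hy3] using huv, hx2, ?_⟩
    · simp only
      omega
    · simp only
      omega
    simp only
    rw [abs_le]
    rcases ha1 with g1 | g1 <;> rcases ha2 with g2 | g2 <;> rw [g1, g2] at h4 ⊢ <;>
      constructor <;> linarith
  choose! f hf using hex
  set F : Finset ℕ := hSfin.toFinset with hF
  have hmem : ∀ x, x ∈ F ↔ x ∈ S := fun x => by rw [hF, Set.Finite.mem_toFinset]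
  have hcardF : S.ncard = F.card := Set.ncard_eq_toFinset_card S hSfin
  -- the constant
  set g : ℕ → ℤ := fun p => a.1 * ((f p).1 : ℤ) + a.2.1 * ((f p).2 : ℤ) - a.2.2 * (N : ℤ) with hg
  have hgm : ∀ p ∈ F, g p ∈ Icc (-(4 * C : ℤ)) (4 * C) := fun p hp => by
    have := abs_le.1 (hf p ((hmem p).1 hp)).2.2.2.2.2.2
    rw [mem_Icc]
    exact this
  obtain ⟨c', hc', hlarge⟩ : ∃ c' ∈ Icc (-(4 * C : ℤ)) (4 * C),
      F.card ≤ (8 * C + 1) * (F.filter (fun p => g p = c')).card := by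
    by_contra hcon
    push Not at hcon
    have h1 := card_eq_sum_card_fiberwise hgm
    have h2 : (8 * C + 1) * F.card = ∑ b ∈ Icc (-(4 * C : ℤ)) (4 * C),
        (8 * C + 1) * (F.filter (fun p => g p = b)).card := by
      rw [← mul_sum, ← h1]
    have hcI : (Icc (-(4 * C : ℤ)) (4 * C)).card = 8 * C + 1 := by
      rw [Int.card_Icc]
      omega
    have h3 : ∑ b ∈ Icc (-(4 * C : ℤ)) (4 * C), (8 * C + 1) * (F.filter (fun p => g p = b)).card <
        ∑ b ∈ Icc (-(4 * C : ℤ)) (4 * C), F.card := by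
      apply sum_lt_sum_of_nonempty
      · exact ⟨0, by rw [mem_Icc]; constructor <;> omega⟩
      · exact hcon
    rw [sum_const, hcI, smul_eq_mul, ← h2] at h3
    exact lt_irrefl _ h3
  have hT : ((F.filter (fun p => g p = c')).image f).card ≤ (Sol K a N c').ncard := by
    rw [← Set.ncard_coe_finset]
    apply Set.ncard_le_ncard _ (sol_finite K a N c')
    intro P hP
    rw [mem_coe] at hP
    obtain ⟨p, hp, rfl⟩ := mem_image.1 hP
    rw [mem_filter] at hp
    obtain ⟨h1, h2, h7, h8, h3, h4, h5⟩ := hf p ((hmem p).1 hp.1)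
    refine ⟨h1, h2, h7, h8, h3, ?_⟩
    have h6 : g p = c' := hp.2
    rw [hg] at h6
    simp only at h6
    linarith
  refine ⟨c', abs_le.2 (mem_Icc.1 hc'), ?_⟩
  · have h1 : (F.filter (fun p => g p = c')).card ≤
        (2 * C + 1) * ((F.filter (fun p => g p = c')).image f).card := by
      apply card_le_mul_card_image
      intro P hP
      obtain ⟨p₀, hp₀, rfl⟩ := mem_image.1 hP
      have hsub : (F.filter (fun p => g p = c')).filter (fun p => f p = f p₀) ⊆
          Icc ((f p₀).1 - C) ((f p₀).1 + C) := by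
        intro p hp
        rw [mem_filter, mem_filter] at hp
        have h4 := abs_le.1 (hf p ((hmem p).1 hp.1.1)).2.2.2.2.2.1
        rw [hp.2] at h4
        rw [mem_Icc]
        constructor <;> omega
      refine (card_le_card hsub).trans ?_
      rw [Nat.card_Icc]
      omega
    rw [hcardF]
    calc F.card ≤ (8 * C + 1) * (F.filter (fun p => g p = c')).card := hlarge
      _ ≤ (8 * C + 1) * ((2 * C + 1) * ((F.filter (fun p => g p = c')).image f).card) :=
          Nat.mul_le_mul_left _ h1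
      _ = (2 * C + 1) * (8 * C + 1) * ((F.filter (fun p => g p = c')).image f).card := by ring
      _ ≤ _ := Nat.mul_le_mul_left _ hT

end Pool.Agent.W5h31.IX
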