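import Pool.Agent.W5h31.IX.IX1

/-!
Index pairs without small prime factors meet every large box.
-/

set_option autoImplicit false

namespace Pool.Agent.W5h31.IX

open Finset Filter

/-- The integers without a prime factor `l ≤ z`. -/
def rough (z : ℕ) : Set ℕ := {k : ℕ | ∀ l : ℕ, l.Prime → l ≤ z → ¬ l ∣ k}

lemma rough_block (z : ℕ) : ∀ j : ℕ, 1 ≤ j → ∃ i < primorial z, j + i ∈ rough z := by
  intro j hj
  have hW : 0 < primorial z := primorial_pos z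
  set W := primorial z with hWd
  set i := (W * j + 1 - j) % W with hi
  have h1 : j ≤ W * j := Nat.le_mul_of_pos_left j hW
  refine ⟨i, Nat.mod_lt _ hW, ?_⟩
  intro l hl hlz hd
  have hlW : l ∣ W := hl.dvd_primorial_iff.2 hlz
  have h2 : j + i ≡ 1 [MOD W] := by
    have h3 : i ≡ W * j + 1 - j [MOD W] := Nat.mod_modEq _ _
    have h4 : j + i ≡ j + (W * j + 1 - j) [MOD W] := h3.add_left j
    have h5 : j + (W * j + 1 - j) = W * j + 1 := by omega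
    rw [h5] at h4
    refine h4.trans ?_
    have h6 : W * j + 1 ≡ 0 + 1 [MOD W] :=
      Nat.ModEq.add_right 1 ((Nat.modEq_zero_iff_dvd).2 (dvd_mul_right W j))
    simpa using h6
  have h3 : j + i ≡ 1 [MOD l] := h2.of_dvd hlW
  have h4 : l ∣ 1 := (h3.dvd_iff dvd_rfl).1 hd
  exact hl.one_lt.ne' (Nat.dvd_one.1 h4)

lemma boxes_rough (z : ℕ) : Boxes (primorial z) {P : ℕ × ℕ | P.1 ∈ rough z ∧ P.2 ∈ rough z} := by
  intro i j hi hj
  obtain ⟨u, hu, hu2⟩ := rough_block z i hi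
  obtain ⟨v, hv, hv2⟩ := rough_block z j hj
  exact ⟨u, hu, v, hv, hu2, hv2⟩

/-- the passage from clusters to index pairs -/
theorem main {M C : ℕ} (hM : 1 ≤ M)
    (hC : ∀ η : ℝ, 0 < η → ∀ᶠ N : ℕ in atTop,
      ∃ a ∈ ({(1, 1, 2), (2, -1, 1), (2, 1, 3)} : Set (ℤ × ℤ × ℤ)), ∃ c : ℤ, |c| ≤ C ∧
        (N : ℝ) ^ (1 - η) ≤ ({p : ℕ | p ≤ 2 * N ∧ Near M C p ∧
          ∃ q : ℕ, Near M C q ∧ a.1 * (p : ℤ) + a.2.1 * (q : ℤ) = a.2.2 * (N : ℤ) + c}.ncard : ℝ)) :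
    ∀ η : ℝ, 0 < η → ∀ᶠ N : ℕ in atTop, ∀ K : Set (ℕ × ℕ), Boxes M K →
      ∃ a ∈ Eqs, ∃ c : ℤ, |c| ≤ (4 * C : ℕ) ∧ (N : ℝ) ^ (1 - η) ≤ ((Sol K a N c).ncard : ℝ) := by
  intro η hη
  filter_upwards [hC (η / 2) (by positivity), eventually_ge_atTop (2 * C + 1),
    ((tendsto_rpow_atTop (by positivity : 0 < η / 2)).comp
      tendsto_natCast_atTop_atTop).eventually_ge_atTop (((2 * C + 1) * (8 * C + 1) : ℕ) : ℝ)]
    with N hN hN2 hN3 K hK
  simp only [Function.comp_apply] at hN3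
  obtain ⟨a, ha, c, hc, hcard⟩ := hN
  set S : Set ℕ := {p : ℕ | p ≤ 2 * N ∧ Near M C p ∧
      ∃ q : ℕ, Near M C q ∧ a.1 * (p : ℤ) + a.2.1 * (q : ℤ) = a.2.2 * (N : ℤ) + c} with hS
  have hfin : S.Finite := (Set.finite_Iic (2 * N)).subset fun p hp => hp.1
  obtain ⟨c', hc', h⟩ := transfer (N := N) (C := C) hM (by omega) hK ha hc hfin (fun p hp => hp)
  refine ⟨a, ha, c', by push_cast; exact hc', ?_⟩
  have hN0 : (0 : ℝ) < N := by
    have : 0 < N := by omega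
    exact_mod_cast this
  have h1 : (S.ncard : ℝ) ≤ (((2 * C + 1) * (8 * C + 1) : ℕ) : ℝ) * ((Sol K a N c').ncard : ℝ) := by
    exact_mod_cast h
  have h2 : (N : ℝ) ^ (1 - η / 2) = (N : ℝ) ^ (1 - η) * (N : ℝ) ^ (η / 2) := by
    rw [← Real.rpow_add hN0]
    congr 1
    ring
  have h3 : (N : ℝ) ^ (1 - η) * (N : ℝ) ^ (η / 2) ≤ (N : ℝ) ^ (η / 2) * ((Sol K a N c').ncard : ℝ) := by
    rw [← h2]
    refine (hcard.trans h1).trans ?_
    exact mul_le_mul_of_nonneg_right hN3 (Nat.cast_nonneg _)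
  have h4 : 0 < (N : ℝ) ^ (η / 2) := Real.rpow_pos_of_pos hN0 _
  rw [mul_comm] at h3
  exact le_of_mul_le_mul_left h3 h4

end Pool.Agent.W5h31.IX
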